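import Pool.Agent.Lib.MP_f11a48_ag.SH.B.Mink

/-!
# Project S0, part (D): cocompactness

`K` is a number field without real embeddings, `bar` an automorphism which is the complex
conjugation at all embeddings, `sg v` (`v : T ⊕ D`) representatives of the pairs of conjugate
embeddings, `h2` is a real element, positive at `T` and negative at `D`; `kap d = - 1 / h2`.

The elements `(a, c)` with `a * bar a + h2 * c * bar c = 1` act on the polydisc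
`kap d * ‖x d‖ ^ 2 < 1` by `x ↦ (x a + h2 bar c) / (bar a - x c)`. If `T` is not empty, the elements
congruent to `1` modulo `M` move every point into a compact set.

Proof: by Minkowski there is `v ∈ O_K ^ 2`, not zero, with `‖v1 + x v2‖ < C ρ`, `‖v2‖ < C / ρ` where
`ρ ^ 2 = 1 - kap ‖x‖ ^ 2`. Then `r = v1 bar v1 + h2 v2 bar v2` is one of finitely many elements, not
`0`; if `y` is a second such vector, with the same `r` and with `y ≡ v` modulo `M r`, then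
`a = (y1 bar v1 + h2 bar y2 v2) / r`, `c = (y2 bar v1 - bar y1 v2) / r` has the property
`bar a - x c = (bar y1 (v1 + x v2) + y2 (h2 bar v2 - x bar v1)) / r`, of size `≤ C' ρ`.
-/

set_option autoImplicit false

namespace Pool.Agent.Lib.MPf11a48.SH.B

open NumberField Module

/-- The data. -/
structure Dat (K : Type) [Field K] [NumberField K] (T D : Type) [Fintype T] [Fintype D] where
  bar : K →+* K
  sg : T ⊕ D → (K →+* ℂ)
  h2 : K
  reps : IsReps sg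
  sg_bar : ∀ v k, sg v (bar k) = (starRingEnd ℂ) (sg v k)
  h2_bar : bar h2 = h2
  posT : ∀ t, 0 < (sg (Sum.inl t) h2).re
  negD : ∀ d, (sg (Sum.inr d) h2).re < 0

variable {K : Type} [Field K] [NumberField K] {T D : Type} [Fintype T] [Fintype D]

namespace Dat

variable (A : Dat K T D)

/-- `- 1 / h2`. -/
noncomputable def kap (d : D) : ℝ := -1 / (A.sg (Sum.inr d) A.h2).re

/-- The polydisc. -/
def X : Set (D → ℂ) := {x | ∀ d, A.kap d * ‖x d‖ ^ 2 < 1}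

theorem kap_pos (d : D) : 0 < A.kap d := div_pos_of_neg_of_neg (by norm_num) (A.negD d)

theorem h2_real (v : T ⊕ D) : A.sg v A.h2 = ((A.sg v A.h2).re : ℂ) := by
  have h := A.sg_bar v A.h2
  rw [A.h2_bar] at h
  exact (Complex.conj_eq_iff_real.1 h.symm).elim fun r hr => by rw [hr, Complex.ofReal_re]

theorem kap_mul (d : D) : (A.kap d : ℂ) * A.sg (Sum.inr d) A.h2 = -1 := by
  rw [A.h2_real, ← Complex.ofReal_mul, kap, div_mul_cancel₀ _ (A.negD d).ne]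
  norm_num

theorem kap_eq (d : D) : A.kap d * (A.sg (Sum.inr d) A.h2).re = -1 := by
  rw [kap, div_mul_cancel₀ _ (A.negD d).ne]

/-- The norm form. -/
noncomputable def nr (v1 v2 : K) : K := v1 * A.bar v1 + A.h2 * v2 * A.bar v2

theorem sg_nr (v : T ⊕ D) (v1 v2 : K) : A.sg v (A.nr v1 v2) =
    ((‖A.sg v v1‖ ^ 2 + (A.sg v A.h2).re * ‖A.sg v v2‖ ^ 2 : ℝ) : ℂ) := by
  rw [nr, map_add, map_mul, map_mul, map_mul, A.sg_bar, A.sg_bar, Complex.mul_conj, mul_assoc,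
    Complex.mul_conj, Complex.normSq_eq_norm_sq, Complex.normSq_eq_norm_sq, A.h2_real v]
  push_cast
  rfl

theorem bar_bar (k : K) : A.bar (A.bar k) = k := by
  obtain ⟨v, -⟩ := A.reps.cov (Classical.arbitrary (K →+* ℂ))
  apply (A.sg v).injective
  rw [A.sg_bar, A.sg_bar, Complex.conj_conj]

/-- The algebraic core. -/
theorem core_alg {r : K} (hr0 : r ≠ 0) {v1 v2 y1 y2 : K} (hv : A.nr v1 v2 = r)
    (hy : A.nr y1 y2 = r) :
    (y1 * A.bar v1 + A.h2 * A.bar y2 * v2) / r - 1 =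
        ((y1 - v1) * A.bar v1 + A.h2 * (A.bar (y2 - v2)) * v2) / r ∧
      (y2 * A.bar v1 - A.bar y1 * v2) / r =
        ((y2 - v2) * A.bar v1 - A.bar (y1 - v1) * v2) / r ∧
      (y1 * A.bar v1 + A.h2 * A.bar y2 * v2) / r * A.bar ((y1 * A.bar v1 + A.h2 * A.bar y2 * v2) / r)
        + A.h2 * ((y2 * A.bar v1 - A.bar y1 * v2) / r) *
          A.bar ((y2 * A.bar v1 - A.bar y1 * v2) / r) = 1 := by
  have hrb : A.bar r = r := by
    rw [← hv, nr, map_add, map_mul, map_mul, map_mul, A.bar_bar, A.bar_bar, A.h2_bar]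
    ring
  refine ⟨?_, ?_, ?_⟩
  · rw [eq_div_iff hr0, sub_mul, div_mul_cancel₀ _ hr0, ← hv, nr, map_sub]
    ring
  · congr 1
    rw [map_sub]
    ring
  · simp only [map_div₀, map_add, map_sub, map_mul, A.bar_bar, A.h2_bar, hrb]
    field_simp
    rw [nr] at hv hy
    rw [sq]
    nth_rewrite 1 [← hv]
    rw [← hy]
    ring

end Dat

/-! ### One place -/

theorem ident (v1 v2 x : ℂ) {h κ : ℝ} (hk : κ * h = -1) :
    ‖v1 + x * v2‖ ^ 2 + h * ‖κ * x * (starRingEnd ℂ) v1 + (starRingEnd ℂ) v2‖ ^ 2 =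
      (1 - κ * ‖x‖ ^ 2) * (‖v1‖ ^ 2 + h * ‖v2‖ ^ 2) := by
  simp only [← Complex.normSq_eq_norm_sq, Complex.normSq_apply, Complex.add_re, Complex.add_im,
    Complex.mul_re, Complex.mul_im, Complex.conj_re, Complex.conj_im, Complex.ofReal_re,
    Complex.ofReal_im]
  linear_combination ((x.re ^ 2 + x.im ^ 2) * (v2.re ^ 2 + v2.im ^ 2) +
    2 * (v1.re * (x.re * v2.re - x.im * v2.im) + v1.im * (x.re * v2.im + x.im * v2.re)) +
    κ * (x.re ^ 2 + x.im ^ 2) * (v1.re ^ 2 + v1.im ^ 2)) * hk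

theorem ident2 (a c x : ℂ) {h κ : ℝ} (hk : κ * h = -1) :
    ‖(starRingEnd ℂ) a - x * c‖ ^ 2 - κ * ‖x * a + h * (starRingEnd ℂ) c‖ ^ 2 =
      (1 - κ * ‖x‖ ^ 2) * (‖a‖ ^ 2 + h * ‖c‖ ^ 2) := by
  simp only [← Complex.normSq_eq_norm_sq, Complex.normSq_apply, Complex.add_re, Complex.add_im,
    Complex.sub_re, Complex.sub_im,
    Complex.mul_re, Complex.mul_im, Complex.conj_re, Complex.conj_im, Complex.ofReal_re,
    Complex.ofReal_im]
  linear_combination ((x.re ^ 2 + x.im ^ 2) * (c.re ^ 2 + c.im ^ 2) -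
    2 * (a.re * (x.re * c.re - x.im * c.im) - a.im * (x.re * c.im + x.im * c.re)) -
    h * (c.re ^ 2 + c.im ^ 2)) * hk

theorem bd_p {v1 v2 x : ℂ} {κ ρ C : ℝ} (hκ : 0 < κ) (hC : 0 < C) (hρ : 0 < ρ)
    (hx : ρ ^ 2 = 1 - κ * ‖x‖ ^ 2) (h1 : ‖v1 + x * v2‖ ≤ C * ρ) (h2 : ‖v2‖ ≤ C / ρ) :
    ‖κ * x * (starRingEnd ℂ) v1 + (starRingEnd ℂ) v2‖ ≤ C * (κ + 2) * ρ := by
  have h3 : (κ : ℂ) * x * (starRingEnd ℂ) v1 + (starRingEnd ℂ) v2 =
      (κ : ℂ) * x * (starRingEnd ℂ) (v1 + x * v2) + ((ρ ^ 2 : ℝ) : ℂ) * (starRingEnd ℂ) v2 := by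
    rw [hx, map_add, map_mul]
    push_cast
    rw [← Complex.mul_conj' x]
    ring
  have h4 : κ * ‖x‖ ≤ κ + 1 := by
    rcases le_total ‖x‖ 1 with h | h
    · nlinarith
    · have : κ * ‖x‖ ≤ κ * ‖x‖ ^ 2 := by
        rw [sq, ← mul_assoc]
        exact le_mul_of_one_le_right (by positivity) h
      nlinarith [sq_nonneg ρ]
  rw [h3]
  refine (norm_add_le _ _).trans ?_
  rw [norm_mul, norm_mul, norm_mul, Complex.norm_real, Complex.norm_real, RCLike.norm_conj,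
    RCLike.norm_conj, Real.norm_of_nonneg hκ.le, Real.norm_of_nonneg (sq_nonneg ρ)]
  calc κ * ‖x‖ * ‖v1 + x * v2‖ + ρ ^ 2 * ‖v2‖ ≤ (κ + 1) * (C * ρ) + ρ ^ 2 * (C / ρ) := by
        gcongr
    _ = C * (κ + 2) * ρ := by
      field_simp
      ring

theorem bd_r {v1 v2 x : ℂ} {h κ ρ C : ℝ} (hk : κ * h = -1) (hκ : 0 < κ) (hC : 0 < C) (hρ : 0 < ρ)
    (hx : ρ ^ 2 = 1 - κ * ‖x‖ ^ 2) (h1 : ‖v1 + x * v2‖ ≤ C * ρ) (h2 : ‖v2‖ ≤ C / ρ) :
    |‖v1‖ ^ 2 + h * ‖v2‖ ^ 2| ≤ C ^ 2 + |h| * (C * (κ + 2)) ^ 2 := by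
  have h3 := bd_p hκ hC hρ hx h1 h2
  have h4 := ident v1 v2 x hk
  rw [← hx] at h4
  have h5 : ρ ^ 2 * |‖v1‖ ^ 2 + h * ‖v2‖ ^ 2| ≤ ρ ^ 2 * (C ^ 2 + |h| * (C * (κ + 2)) ^ 2) := by
    rw [← abs_of_pos (pow_pos hρ 2), ← abs_mul, abs_of_pos (pow_pos hρ 2), ← h4]
    refine (abs_add_le _ _).trans ?_
    rw [abs_of_nonneg (sq_nonneg _), abs_mul, abs_of_nonneg (sq_nonneg ‖_ + (starRingEnd ℂ) v2‖)]
    calc ‖v1 + x * v2‖ ^ 2 + |h| * ‖κ * x * (starRingEnd ℂ) v1 + (starRingEnd ℂ) v2‖ ^ 2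
        ≤ (C * ρ) ^ 2 + |h| * (C * (κ + 2) * ρ) ^ 2 := by gcongr
      _ = _ := by ring
  exact le_of_mul_le_mul_left h5 (pow_pos hρ 2)

theorem bd_q {v1 v2 y1 y2 x r : ℂ} {h κ ρ C : ℝ} (hk : κ * h = -1) (hκ : 0 < κ) (hC : 0 < C)
    (hρ : 0 < ρ) (hx : ρ ^ 2 = 1 - κ * ‖x‖ ^ 2) (h1 : ‖v1 + x * v2‖ ≤ C * ρ)
    (h2 : ‖v2‖ ≤ C / ρ) :
    ‖((starRingEnd ℂ) y1 * (v1 + x * v2) + y2 * (h * (starRingEnd ℂ) v2 - x * (starRingEnd ℂ) v1))
      / r‖ ≤ (‖y1‖ + |h| * ‖y2‖) * (C * (κ + 2)) / ‖r‖ * ρ := by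
  have h3 := bd_p hκ hC hρ hx h1 h2
  have h4 : (h : ℂ) * (starRingEnd ℂ) v2 - x * (starRingEnd ℂ) v1 =
      h * (κ * x * (starRingEnd ℂ) v1 + (starRingEnd ℂ) v2) := by
    have : (κ : ℂ) * h = -1 := by exact_mod_cast congrArg (fun r : ℝ => (r : ℂ)) hk
    linear_combination (-(x * (starRingEnd ℂ) v1)) * this
  rw [h4, norm_div, mul_comm _ ρ, ← mul_div_assoc]
  gcongr
  refine (norm_add_le _ _).trans ?_
  rw [norm_mul, norm_mul, norm_mul, Complex.norm_real, RCLike.norm_conj, Real.norm_eq_abs]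
  calc ‖y1‖ * ‖v1 + x * v2‖ +
        ‖y2‖ * (|h| * ‖κ * x * (starRingEnd ℂ) v1 + (starRingEnd ℂ) v2‖)
      ≤ ‖y1‖ * (C * ρ) + ‖y2‖ * (|h| * (C * (κ + 2) * ρ)) := by gcongr
    _ ≤ ‖y1‖ * (C * (κ + 2) * ρ) + ‖y2‖ * (|h| * (C * (κ + 2) * ρ)) := by
      gcongr
      nlinarith
    _ = _ := by ring

namespace Dat

variable (A : Dat K T D)

/-- `sqrt (1 - kap ‖x‖ ^ 2)` (and `1` at the definite places). -/
noncomputable def rho (x : D → ℂ) : T ⊕ D → ℝ :=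
  Sum.elim (fun _ => 1) fun d => Real.sqrt (1 - A.kap d * ‖x d‖ ^ 2)

theorem rho_pos {x : D → ℂ} (hx : x ∈ A.X) (v : T ⊕ D) : 0 < A.rho x v := by
  rcases v with t | d
  · exact one_pos
  · exact Real.sqrt_pos.2 (sub_pos.2 (hx d))

theorem rho_sq {x : D → ℂ} (hx : x ∈ A.X) (d : D) :
    A.rho x (Sum.inr d) ^ 2 = 1 - A.kap d * ‖x d‖ ^ 2 :=
  Real.sq_sqrt (sub_pos.2 (hx d)).le

/-- `(v1, v2)` is short for `x`. -/
def Short (C : ℝ) (x : D → ℂ) (v1 v2 : K) : Prop :=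
  (∀ t, ‖A.sg (Sum.inl t) v1‖ ≤ C ∧ ‖A.sg (Sum.inl t) v2‖ ≤ C) ∧
    ∀ d, ‖A.sg (Sum.inr d) v1 + x d * A.sg (Sum.inr d) v2‖ ≤ C * A.rho x (Sum.inr d) ∧
      ‖A.sg (Sum.inr d) v2‖ ≤ C / A.rho x (Sum.inr d)

theorem exists_short : ∃ C : ℝ, 0 < C ∧ ∀ x ∈ A.X, ∃ v1 v2 : 𝓞 K, (v1 ≠ 0 ∨ v2 ≠ 0) ∧
    A.Short C x v1 v2 := by
  obtain ⟨C, hC, h⟩ := mink A.reps
  refine ⟨C, hC, fun x hx => ?_⟩
  obtain ⟨a, b, hab, h1⟩ := h (Sum.elim (fun _ => 0) x) (A.rho x) (A.rho_pos hx)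
  refine ⟨a, b, hab, fun t => ?_, fun d => ?_⟩
  · have h2 := h1 (Sum.inl t)
    simp only [Sum.elim_inl, zero_mul, add_zero, rho, mul_one, div_one] at h2
    exact ⟨h2.1.le, h2.2.le⟩
  · have h2 := h1 (Sum.inr d)
    rw [Sum.elim_inr] at h2
    exact ⟨h2.1.le, h2.2.le⟩

/-- A bound for the norms of short vectors. -/
noncomputable def Bd (C : ℝ) : T ⊕ D → ℝ :=
  Sum.elim (fun t => C ^ 2 + |(A.sg (Sum.inl t) A.h2).re| * C ^ 2)
    fun d => C ^ 2 + |(A.sg (Sum.inr d) A.h2).re| * (C * (A.kap d + 2)) ^ 2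

theorem Bd_nonneg (C : ℝ) (v : T ⊕ D) : 0 ≤ A.Bd C v := by
  rcases v with t | d
  · exact add_nonneg (sq_nonneg _) (mul_nonneg (abs_nonneg _) (sq_nonneg _))
  · exact add_nonneg (sq_nonneg _) (mul_nonneg (abs_nonneg _) (sq_nonneg _))

theorem nr_bd {C : ℝ} (hC : 0 < C) {x : D → ℂ} (hx : x ∈ A.X) {v1 v2 : K}
    (h : A.Short C x v1 v2) (φ : K →+* ℂ) : ‖φ (A.nr v1 v2)‖ ≤ ∑ v, A.Bd C v := by
  have h1 : ∀ v, ‖A.sg v (A.nr v1 v2)‖ ≤ A.Bd C v := by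
    intro v
    rw [A.sg_nr, Complex.norm_real, Real.norm_eq_abs]
    rcases v with t | d
    · refine (abs_add_le _ _).trans ?_
      rw [abs_of_nonneg (sq_nonneg _), abs_mul, abs_of_nonneg (sq_nonneg ‖A.sg (Sum.inl t) v2‖)]
      have h2 := (h.1 t).1
      have h3 := (h.1 t).2
      simp only [Bd, Sum.elim_inl]
      gcongr
    · exact bd_r (A.kap_eq d) (A.kap_pos d) hC (A.rho_pos hx _) (A.rho_sq hx d) (h.2 d).1 (h.2 d).2
  have h2 : ∀ v, A.Bd C v ≤ ∑ v, A.Bd C v := fun v =>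
    Finset.single_le_sum (fun v _ => A.Bd_nonneg C v) (Finset.mem_univ v)
  obtain ⟨v, hv | hv⟩ := A.reps.cov φ
  · rw [hv]
    exact (h1 v).trans (h2 v)
  · rw [hv, RCLike.norm_conj]
    exact (h1 v).trans (h2 v)

theorem nr_ne [Nonempty T] {v1 v2 : K} (h : v1 ≠ 0 ∨ v2 ≠ 0) : A.nr v1 v2 ≠ 0 := by
  intro h0
  have t : T := Classical.arbitrary T
  have h1 := A.sg_nr (Sum.inl t) v1 v2
  rw [h0, map_zero] at h1
  have h2 : ‖A.sg (Sum.inl t) v1‖ ^ 2 + (A.sg (Sum.inl t) A.h2).re * ‖A.sg (Sum.inl t) v2‖ ^ 2 = 0 := by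
    exact_mod_cast h1.symm
  have h3 := A.posT t
  rcases h with h | h
  · have : 0 < ‖A.sg (Sum.inl t) v1‖ := norm_pos_iff.2 ((map_ne_zero _).2 h)
    nlinarith [sq_pos_of_pos this, mul_nonneg h3.le (sq_nonneg ‖A.sg (Sum.inl t) v2‖)]
  · have : 0 < ‖A.sg (Sum.inl t) v2‖ := norm_pos_iff.2 ((map_ne_zero _).2 h)
    nlinarith [mul_pos h3 (sq_pos_of_pos this), sq_nonneg ‖A.sg (Sum.inl t) v1‖]

/-- The conclusion for `x` with the constant `C`. -/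
def Concl (M : ℕ) (C : ℝ) (x : D → ℂ) : Prop :=
  ∃ a c : K, (∃ a' : K, IsIntegral ℤ a' ∧ a = 1 + M * a') ∧
    (∃ c' : K, IsIntegral ℤ c' ∧ c = M * c') ∧ A.nr a c = 1 ∧
    ∀ d, ‖(starRingEnd ℂ) (A.sg (Sum.inr d) a) - x d * A.sg (Sum.inr d) c‖ ≤
      C * A.rho x (Sum.inr d)

theorem Concl.mono {M : ℕ} {C C' : ℝ} {x : D → ℂ} (hx : x ∈ A.X) (h : A.Concl M C x)
    (hC : C ≤ C') : A.Concl M C' x := by
  obtain ⟨a, c, h1, h2, h3, h4⟩ := h
  exact ⟨a, c, h1, h2, h3, fun d => (h4 d).trans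
    (mul_le_mul_of_nonneg_right hC (A.rho_pos hx _).le)⟩

theorem isIntegral_bar {k : K} (h : IsIntegral ℤ k) : IsIntegral ℤ (A.bar k) :=
  map_isIntegral_int A.bar h

/-- Two vectors in the same class. -/
theorem step (hint : IsIntegral ℤ A.h2) {M R : ℕ} {C : ℝ} (hC : 0 < C) {r : K} (hr0 : r ≠ 0)
    (hR : IsIntegral ℤ ((R : K) * r⁻¹ / M)) (hM : 0 < M) {y1 y2 v1 v2 : K}
    (hiv1 : IsIntegral ℤ v1) (hiv2 : IsIntegral ℤ v2)
    (hy : A.nr y1 y2 = r) (hv : A.nr v1 v2 = r)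
    {e1 e2 : K} (he1 : IsIntegral ℤ e1) (he2 : IsIntegral ℤ e2) (h1 : y1 - v1 = R * e1)
    (h2 : y2 - v2 = R * e2) {x : D → ℂ} (hx : x ∈ A.X) (hs : A.Short C x v1 v2) :
    A.Concl M (∑ d, (‖A.sg (Sum.inr d) y1‖ + |(A.sg (Sum.inr d) A.h2).re| * ‖A.sg (Sum.inr d) y2‖) *
      (C * (A.kap d + 2)) / ‖A.sg (Sum.inr d) r‖) x := by
  obtain ⟨k1, k2, k3⟩ := A.core_alg hr0 hv hy
  have hM0 : (M : K) ≠ 0 := by exact_mod_cast hM.ne'
  refine ⟨(y1 * A.bar v1 + A.h2 * A.bar y2 * v2) / r, (y2 * A.bar v1 - A.bar y1 * v2) / r,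
    ⟨((R : K) * r⁻¹ / M) * (e1 * A.bar v1 + A.h2 * A.bar e2 * v2), ?_, ?_⟩,
    ⟨((R : K) * r⁻¹ / M) * (e2 * A.bar v1 - A.bar e1 * v2), ?_, ?_⟩, ?_, fun d => ?_⟩
  · exact hR.mul (((he1.mul (A.isIntegral_bar hiv1))).add
      ((hint.mul (A.isIntegral_bar he2)).mul hiv2))
  · rw [← sub_eq_iff_eq_add', k1, h1, h2, map_mul, map_natCast]
    field_simp
  · exact hR.mul (((he2.mul (A.isIntegral_bar hiv1))).sub ((A.isIntegral_bar he1).mul hiv2))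
  · rw [k2, h1, h2, map_mul, map_natCast]
    field_simp
  · exact k3
  · have h3 := bd_q (v1 := A.sg (Sum.inr d) v1) (v2 := A.sg (Sum.inr d) v2)
      (y1 := A.sg (Sum.inr d) y1) (y2 := A.sg (Sum.inr d) y2) (r := A.sg (Sum.inr d) r)
      (A.kap_eq d) (A.kap_pos d) hC (A.rho_pos hx (Sum.inr d)) (A.rho_sq hx d) (hs.2 d).1 (hs.2 d).2
    have h4 : (starRingEnd ℂ) (A.sg (Sum.inr d) ((y1 * A.bar v1 + A.h2 * A.bar y2 * v2) / r)) -
        x d * A.sg (Sum.inr d) ((y2 * A.bar v1 - A.bar y1 * v2) / r) =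
        ((starRingEnd ℂ) (A.sg (Sum.inr d) y1) * (A.sg (Sum.inr d) v1 + x d * A.sg (Sum.inr d) v2) +
          A.sg (Sum.inr d) y2 * (((A.sg (Sum.inr d) A.h2).re : ℂ) *
            (starRingEnd ℂ) (A.sg (Sum.inr d) v2) -
            x d * (starRingEnd ℂ) (A.sg (Sum.inr d) v1))) / A.sg (Sum.inr d) r := by
      have hrr : (starRingEnd ℂ) (A.sg (Sum.inr d) r) = A.sg (Sum.inr d) r := by
        rw [← hv, A.sg_nr, Complex.conj_ofReal]
      rw [← A.h2_real]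
      simp only [map_div₀, map_add, map_sub, map_mul, A.sg_bar, Complex.conj_conj, hrr]
      rw [A.h2_real, Complex.conj_ofReal]
      ring
    rw [h4]
    refine h3.trans ?_
    refine mul_le_mul_of_nonneg_right ?_ (A.rho_pos hx _).le
    refine Finset.single_le_sum (f := fun d => (‖A.sg (Sum.inr d) y1‖ +
      |(A.sg (Sum.inr d) A.h2).re| * ‖A.sg (Sum.inr d) y2‖) *
      (C * (A.kap d + 2)) / ‖A.sg (Sum.inr d) r‖) (fun d _ => ?_) (Finset.mem_univ d)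
    have := A.kap_pos d
    positivity

/-- **Cocompactness**, first form. -/
theorem coc_int [Nonempty T] (hint : IsIntegral ℤ A.h2) {M : ℕ} (hM : 0 < M) :
    ∃ C : ℝ, 0 < C ∧ ∀ x ∈ A.X, A.Concl M C x := by
  classical
  obtain ⟨C, hC, hshort⟩ := A.exists_short
  have hfin := Embeddings.finite_of_norm_le K ℂ (∑ v, A.Bd C v)
  obtain ⟨m, hm0, hm⟩ := exists_integral_multiples ℤ ℚ (L := K)
    (hfin.toFinset.image fun r => r⁻¹)
  set R : ℕ := M * m.natAbs with hRdef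
  have hR0 : R ≠ 0 := Nat.mul_ne_zero hM.ne' (Int.natAbs_ne_zero.2 hm0)
  have hRi : ∀ r ∈ hfin.toFinset, IsIntegral ℤ ((R : K) * r⁻¹ / M) := by
    intro r hr
    have h1 := hm r⁻¹ (Finset.mem_image_of_mem _ hr)
    have hM0 : (M : K) ≠ 0 := by exact_mod_cast hM.ne'
    have h2 : (R : K) * r⁻¹ / M = (m.natAbs : K) * r⁻¹ := by
      rw [hRdef]
      push_cast
      field_simp
    rw [h2]
    rcases Int.natAbs_eq m with h3 | h3
    · have h4 : (m.natAbs : K) * r⁻¹ = m • r⁻¹ := by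
        conv_rhs => rw [h3]
        rw [zsmul_eq_mul, Int.cast_natCast]
      rw [h4]
      exact h1
    · have h4 : (m.natAbs : K) * r⁻¹ = -(m • r⁻¹) := by
        conv_rhs => rw [h3]
        rw [zsmul_eq_mul, Int.cast_neg, Int.cast_natCast, neg_mul, neg_neg]
      rw [h4]
      exact h1.neg
  set I : Ideal (𝓞 K) := Ideal.span {(R : 𝓞 K)} with hI
  have hIne : I ≠ ⊥ := by
    rw [hI, Ne, Ideal.span_singleton_eq_bot]
    exact_mod_cast hR0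
  have : Finite (𝓞 K ⧸ I) := Ideal.finiteQuotientOfFreeOfNeBot I hIne
  have : Fintype (𝓞 K ⧸ I) := Fintype.ofFinite _
  -- the constant of a class
  have key : ∀ z : K × (𝓞 K ⧸ I) × (𝓞 K ⧸ I), ∃ C' : ℝ, 0 ≤ C' ∧ (z.1 ∈ hfin.toFinset →
      ∀ x ∈ A.X, ∀ v1 v2 : 𝓞 K, (v1 ≠ 0 ∨ v2 ≠ 0) → A.Short C x v1 v2 →
        z = (A.nr v1 v2, Ideal.Quotient.mk I v1, Ideal.Quotient.mk I v2) → A.Concl M C' x) := by
    intro z
    by_cases hz : ∃ y1 y2 : 𝓞 K, z = (A.nr y1 y2, Ideal.Quotient.mk I y1, Ideal.Quotient.mk I y2)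
    · obtain ⟨y1, y2, hy⟩ := hz
      refine ⟨∑ d, (‖A.sg (Sum.inr d) y1‖ + |(A.sg (Sum.inr d) A.h2).re| *
        ‖A.sg (Sum.inr d) y2‖) * (C * (A.kap d + 2)) / ‖A.sg (Sum.inr d) z.1‖,
        Finset.sum_nonneg fun d _ => ?_, fun hzr x hx v1 v2 hv hs hcl => ?_⟩
      · have := A.kap_pos d
        positivity
      · have e1 : A.nr y1 y2 = z.1 := by rw [hy]
        have e2 : A.nr v1 v2 = z.1 := by rw [hcl]
        have e3 : Ideal.Quotient.mk I y1 = Ideal.Quotient.mk I v1 := by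
          have := congrArg (fun w => w.2.1) (hy.symm.trans hcl)
          exact this
        have e4 : Ideal.Quotient.mk I y2 = Ideal.Quotient.mk I v2 := by
          have := congrArg (fun w => w.2.2) (hy.symm.trans hcl)
          exact this
        rw [Ideal.Quotient.eq, hI, Ideal.mem_span_singleton] at e3 e4
        obtain ⟨f1, hf1⟩ := e3
        obtain ⟨f2, hf2⟩ := e4
        have g1 := congrArg (fun w : 𝓞 K => (w : K)) hf1
        have g2 := congrArg (fun w : 𝓞 K => (w : K)) hf2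
        simp only [map_sub, map_mul, map_natCast] at g1 g2
        exact A.step hint hC (e2 ▸ A.nr_ne (by
          rcases hv with h | h
          · left; exact_mod_cast h
          · right; exact_mod_cast h)) (hRi _ hzr) hM v1.2 v2.2 e1 e2 f1.2 f2.2 g1 g2 hx hs
    · exact ⟨0, le_rfl, fun _ x _ v1 v2 _ _ hcl => absurd ⟨v1, v2, hcl⟩ hz⟩
  choose f hf0 hf using key
  refine ⟨∑ z ∈ hfin.toFinset ×ˢ (Finset.univ ×ˢ Finset.univ), f z + 1, ?_, fun x hx => ?_⟩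
  · have := Finset.sum_nonneg (s := hfin.toFinset ×ˢ
      ((Finset.univ : Finset (𝓞 K ⧸ I)) ×ˢ (Finset.univ : Finset (𝓞 K ⧸ I)))) fun z _ => hf0 z
    linarith
  · obtain ⟨v1, v2, hv, hs⟩ := hshort x hx
    have hmem : A.nr v1 v2 ∈ hfin.toFinset := by
      rw [Set.Finite.mem_toFinset]
      refine ⟨?_, A.nr_bd hC hx hs⟩
      exact (v1.2.mul (A.isIntegral_bar v1.2)).add ((hint.mul v2.2).mul (A.isIntegral_bar v2.2))
    refine (hf (A.nr v1 v2, Ideal.Quotient.mk I v1, Ideal.Quotient.mk I v2) hmem x hx v1 v2 hv hs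
      rfl).mono A hx ?_
    have := Finset.single_le_sum (f := f) (fun z _ => hf0 z)
      (Finset.mk_mem_product hmem (Finset.mk_mem_product (Finset.mem_univ (Ideal.Quotient.mk I v1))
        (Finset.mem_univ (Ideal.Quotient.mk I v2))))
    linarith

end Dat

end Pool.Agent.Lib.MPf11a48.SH.B
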