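import Pool.Agent.Lib.MP_f11a48_ag.SH.B.Coc
import Pool.Agent.Lib.MP_f11a48_ag.SH.Spec

/-!
# Project S0, part (D): cocompactness, the interface statement
-/

set_option autoImplicit false

namespace Pool.Agent.Lib.MPf11a48.SH

open NumberField Module

namespace B

variable {K : Type} [Field K] [NumberField K] {T : Type} [Fintype T] [DecidableEq T] {n : ℕ}

theorem reps_of (F : Fam K T n) : IsReps F.sg := by
  refine ⟨fun φ => ?_, ?_⟩
  · obtain ⟨v, hv | hv⟩ := F.sg_all φ
    · exact ⟨v, Or.inl fun k => by rw [hv]⟩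
    · exact ⟨v, Or.inr fun k => by rw [hv]; rfl⟩
  · rw [← Embeddings.card K ℂ]
    have e : (T ⊕ Fin n) ⊕ (T ⊕ Fin n) ≃ (K →+* ℂ) := by
      refine Equiv.ofBijective (Sum.elim F.sg fun v => (starRingEnd ℂ).comp (F.sg v)) ⟨?_, ?_⟩
      · rintro (v | v) (w | w) h
        · exact congrArg _ (F.sg_inj h)
        · exact absurd h (F.sg_ne v w)
        · exact absurd h.symm (F.sg_ne w v)
        · refine congrArg _ (F.sg_inj (RingHom.ext fun k => ?_))
          have := congrArg (fun φ : K →+* ℂ => (starRingEnd ℂ) (φ k)) h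
          simpa using this
      · intro s
        obtain ⟨v, hv | hv⟩ := F.sg_all s
        · exact ⟨Sum.inl v, hv.symm⟩
        · exact ⟨Sum.inr v, hv.symm⟩
    rw [← Fintype.card_congr e, Fintype.card_sum, two_mul]

/-- the data of `Coc.lean` -/
noncomputable def toDat (F : Fam K T n) : Dat K T (Fin n) where
  bar := F.bar
  sg := F.sg
  h2 := -F.c
  reps := reps_of F
  sg_bar v k := F.conj (F.sg v) k
  h2_bar := by
    show F.bar (-F.c) = -F.c
    rw [map_neg, F.c_bar]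
  posT t := by
    rw [map_neg, Complex.neg_re]
    exact neg_pos.2 (F.c_T t)
  negD d := by
    rw [map_neg, Complex.neg_re]
    exact neg_neg_iff_pos.2 (F.c_D d)

theorem kap_toDat (F : Fam K T n) (d : Fin n) :
    (toDat F).kap d = 1 / (F.sg (Sum.inr d) F.c).re := by
  show -1 / (F.sg (Sum.inr d) (-F.c)).re = _
  rw [map_neg, Complex.neg_re, neg_div_neg_eq]

theorem mem_X_iff (F : Fam K T n) (z : Fin n → ℂ) : z ∈ (toDat F).X ↔ z ∈ F.X := by
  refine forall_congr' fun d => ?_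
  rw [kap_toDat, one_div, inv_mul_lt_iff₀ (F.c_D d), mul_one]

theorem c_real (F : Fam K T n) (v : T ⊕ Fin n) : F.sg v F.c = ((F.sg v F.c).re : ℂ) := by
  have h := F.conj (F.sg v) F.c
  rw [F.c_bar] at h
  exact (Complex.conj_eq_iff_real.1 h.symm).elim fun r hr => by rw [hr, Complex.ofReal_re]

end B

open B in
theorem specCOC : SpecCOC := by
  intro K _ _ T _ _ n F M hM
  have : Nonempty T := ⟨F.t0⟩
  obtain ⟨C, hC, h⟩ := (toDat F).coc_int (by
    show IsIntegral ℤ (-F.c)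
    exact F.c_int.neg) hM
  refine ⟨{z | ∀ d, ‖z d‖ ^ 2 ≤ (F.sg (Sum.inr d) F.c).re * (1 - 1 / C ^ 2)}, ?_, ?_, ?_⟩
  · refine Metric.isCompact_of_isClosed_isBounded ?_ ?_
    · have h1 : {z : Fin n → ℂ | ∀ d, ‖z d‖ ^ 2 ≤ (F.sg (Sum.inr d) F.c).re * (1 - 1 / C ^ 2)} =
          ⋂ d, {z : Fin n → ℂ | ‖z d‖ ^ 2 ≤ (F.sg (Sum.inr d) F.c).re * (1 - 1 / C ^ 2)} := by
        ext z
        simp only [Set.mem_ofPred_eq, Set.mem_iInter]
      rw [h1]
      exact isClosed_iInter fun d => isClosed_le (by fun_prop) continuous_const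
    · rw [Metric.isBounded_iff_subset_closedBall 0]
      refine ⟨∑ d, ((F.sg (Sum.inr d) F.c).re + 1), fun z hz => ?_⟩
      have hp : ∀ d, 0 ≤ (F.sg (Sum.inr d) F.c).re + 1 := fun d => by linarith [F.c_D d]
      rw [mem_closedBall_zero_iff, pi_norm_le_iff_of_nonneg (Finset.sum_nonneg fun d _ => hp d)]
      intro d
      refine le_trans ?_ (Finset.single_le_sum (fun d _ => hp d) (Finset.mem_univ d))
      have h1 := hz d
      have h2 : (F.sg (Sum.inr d) F.c).re * (1 - 1 / C ^ 2) ≤ (F.sg (Sum.inr d) F.c).re := by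
        have : 0 ≤ (F.sg (Sum.inr d) F.c).re * (1 / C ^ 2) :=
          mul_nonneg (F.c_D d).le (by positivity)
        linarith
      nlinarith [sq_nonneg (‖z d‖ - 1), norm_nonneg (z d)]
  · intro z hz d
    refine lt_of_le_of_lt (hz d) ?_
    have : 0 < (F.sg (Sum.inr d) F.c).re * (1 / C ^ 2) := mul_pos (F.c_D d) (by positivity)
    linarith
  · intro z hz
    have hz' := (mem_X_iff F z).2 hz
    obtain ⟨a, b, ha, ⟨b', hb', hb⟩, hab, hbd⟩ := h z hz'
    refine ⟨⟨a, -b, ha, ⟨-b', hb'.neg, by rw [hb]; ring⟩, ?_⟩, fun d => ?_⟩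
    · have h1 : a * F.bar a + -F.c * b * F.bar b = 1 := hab
      rw [map_neg, ← h1]
      ring
    · set r := (F.sg (Sum.inr d) F.c).re with hr
      have hr0 : 0 < r := F.c_D d
      have hk : 1 / r * (-r) = -1 := by field_simp
      have h1 := ident2 (F.sg (Sum.inr d) a) (F.sg (Sum.inr d) b) (z d) hk
      have h2 : ‖F.sg (Sum.inr d) a‖ ^ 2 + -r * ‖F.sg (Sum.inr d) b‖ ^ 2 = 1 := by
        have h3 := (toDat F).sg_nr (Sum.inr d) a b
        rw [hab, map_one] at h3
        have h4 : ((toDat F).sg (Sum.inr d) (toDat F).h2).re = -r := by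
          show (F.sg (Sum.inr d) (-F.c)).re = -r
          rw [map_neg, Complex.neg_re]
        rw [h4] at h3
        exact_mod_cast h3.symm
      have h3 : (toDat F).rho z (Sum.inr d) ^ 2 = 1 - 1 / r * ‖z d‖ ^ 2 := by
        rw [(toDat F).rho_sq hz' d, kap_toDat]
      rw [h2, mul_one, ← h3] at h1
      have hρ := (toDat F).rho_pos hz' (Sum.inr d)
      set ρ := (toDat F).rho z (Sum.inr d) with hρd
      set q := (starRingEnd ℂ) (F.sg (Sum.inr d) a) - z d * F.sg (Sum.inr d) b with hq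
      have hq1 : ‖q‖ ≤ C * ρ := hbd d
      have hq0 : 0 < ‖q‖ ^ 2 := by
        have : 0 ≤ 1 / r * ‖z d * F.sg (Sum.inr d) a + ((-r : ℝ) : ℂ) *
            (starRingEnd ℂ) (F.sg (Sum.inr d) b)‖ ^ 2 := by positivity
        nlinarith [pow_pos hρ 2]
      have h4 : Fam.Gam.act (F := F) (M := M) ⟨a, -b, ha, ⟨-b', hb'.neg, by rw [hb]; ring⟩, by
          have h1 : a * F.bar a + -F.c * b * F.bar b = 1 := hab
          rw [map_neg, ← h1]
          ring⟩ z d = (z d * F.sg (Sum.inr d) a + ((-r : ℝ) : ℂ) *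
            (starRingEnd ℂ) (F.sg (Sum.inr d) b)) / q := by
        show (F.sg (Sum.inr d) a * z d + F.sg (Sum.inr d) F.c *
          (starRingEnd ℂ) (F.sg (Sum.inr d) (-b))) /
            (F.sg (Sum.inr d) (-b) * z d + (starRingEnd ℂ) (F.sg (Sum.inr d) a)) = _
        rw [c_real F, ← hr, map_neg, map_neg, Complex.ofReal_neg, hq]
        congr 1 <;> ring
      rw [h4, norm_div, div_pow, div_le_iff₀ hq0]
      have h5 : ‖z d * F.sg (Sum.inr d) a + ((-r : ℝ) : ℂ) *
          (starRingEnd ℂ) (F.sg (Sum.inr d) b)‖ ^ 2 = r * (‖q‖ ^ 2 - ρ ^ 2) := by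
        rw [← h1]
        field_simp
        ring
      rw [h5, mul_assoc]
      refine mul_le_mul_of_nonneg_left ?_ hr0.le
      have h6 : ‖q‖ ^ 2 ≤ C ^ 2 * ρ ^ 2 := by
        rw [← mul_pow]
        exact pow_le_pow_left₀ (norm_nonneg _) hq1 2
      have h7 : 1 / C ^ 2 * ‖q‖ ^ 2 ≤ ρ ^ 2 := by
        rw [one_div, inv_mul_le_iff₀ (by positivity)]
        exact h6
      linarith

end Pool.Agent.Lib.MPf11a48.SH
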