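import Pool.Agent.Lib.MP_f11a48_ag.SH.B.CocMain

/-!
# Project S0, part (D): density of the CM points
-/

set_option autoImplicit false

namespace Pool.Agent.Lib.MPf11a48.SH

open NumberField Module

namespace B

/-- `K` is dense in the product of the completions at the complex places. -/
theorem dense_K {K : Type} [Field K] [NumberField K] {P : Type} [Fintype P]
    {sg : P → (K →+* ℂ)} (h : IsReps sg) : DenseRange (fun (e : K) (v : P) => sg v e) := by
  classical
  set ι := Free.ChooseBasisIndex ℤ (𝓞 K)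
  have h1 : DenseRange (fun (q : ι → ℚ) (i : ι) => ((q i : ℚ) : ℝ)) :=
    DenseRange.piMap fun _ => Rat.denseRange_cast
  have h2 : Continuous (bP h).equivFun.symm :=
    (bP h).equivFun.symm.toLinearMap.continuous_of_finiteDimensional
  have h3 : DenseRange ((bP h).equivFun.symm ∘ fun (q : ι → ℚ) (i : ι) => ((q i : ℚ) : ℝ)) :=
    (bP h).equivFun.symm.surjective.denseRange.comp h1 h2
  refine h3.mono ?_
  rintro _ ⟨q, rfl⟩
  refine ⟨∑ i, q i • integralBasis K i, ?_⟩
  funext v
  rw [Function.comp_apply, Basis.equivFun_symm_apply, Finset.sum_apply]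
  show sg v (∑ i, q i • integralBasis K i) = _
  rw [map_sum]
  refine Finset.sum_congr rfl fun i _ => ?_
  rw [Pi.smul_apply, bP_apply, Complex.real_smul, Rat.smul_def, map_mul, map_ratCast,
    Complex.ofReal_ratCast]

variable {K : Type} [Field K] [NumberField K] {T : Type} [Fintype T] [DecidableEq T] {n : ℕ}

theorem dense_D (F : Fam K T n) :
    DenseRange (fun (e : K) (d : Fin n) => F.sg (Sum.inr d) e) := by
  have h1 := dense_K (reps_of F)
  have h2 : Function.Surjective (fun (w : T ⊕ Fin n → ℂ) (d : Fin n) => w (Sum.inr d)) :=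
    fun w => ⟨Sum.elim (fun _ => 0) w, rfl⟩
  exact h2.denseRange.comp h1 (by fun_prop)

theorem isOpen_X (F : Fam K T n) : IsOpen F.X := by
  have h1 : F.X = ⋂ d, {z : Fin n → ℂ | ‖z d‖ ^ 2 < (F.sg (Sum.inr d) F.c).re} := by
    ext z
    simp only [Fam.X, Set.mem_ofPred_eq, Set.mem_iInter]
  rw [h1]
  exact isOpen_iInter_of_finite fun d => isOpen_lt (by fun_prop) continuous_const

open scoped Classical in
/-- the change of parameters -/
noncomputable def psi (F : Fam K T n) (s : Set (Fin n)) (w : Fin n → ℂ) : Fin n → ℂ := fun d =>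
  if d ∈ s then F.sg (Sum.inr d) F.c / (starRingEnd ℂ) (w d) else w d

theorem psi_cont (F : Fam K T n) (s : Set (Fin n)) {w : Fin n → ℂ} (hw : ∀ d, w d ≠ 0) :
    ContinuousAt (psi F s) w := by
  rw [continuousAt_pi]
  intro d
  by_cases hd : d ∈ s
  · simp only [psi, if_pos hd]
    refine ContinuousAt.div continuousAt_const ?_ ((map_ne_zero _).2 (hw d))
    exact (Complex.continuous_conj.comp (continuous_apply d)).continuousAt
  · simp only [psi, if_neg hd]
    exact (continuous_apply d).continuousAt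

theorem psi_psi (F : Fam K T n) (s : Set (Fin n)) {w : Fin n → ℂ} (hw : ∀ d, w d ≠ 0) :
    psi F s (psi F s w) = w := by
  funext d
  by_cases hd : d ∈ s
  · simp only [psi, if_pos hd]
    have h1 : (starRingEnd ℂ) (F.sg (Sum.inr d) F.c) = F.sg (Sum.inr d) F.c := by
      rw [← F.conj, F.c_bar]
    have h2 : F.sg (Sum.inr d) F.c ≠ 0 := by
      intro h
      have := F.c_D d
      rw [h] at this
      exact lt_irrefl _ this
    have h3 := hw d
    rw [map_div₀, Complex.conj_conj, h1]
    field_simp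
  · simp only [psi, if_neg hd]

theorem psi_ne (F : Fam K T n) (s : Set (Fin n)) {w : Fin n → ℂ} (hw : ∀ d, w d ≠ 0) (d : Fin n) :
    psi F s w d ≠ 0 := by
  by_cases hd : d ∈ s
  · simp only [psi, if_pos hd]
    refine div_ne_zero ?_ ((map_ne_zero _).2 (hw d))
    intro h
    have := F.c_D d
    rw [h] at this
    exact lt_irrefl _ this
  · simp only [psi, if_neg hd]
    exact hw d

end B

open B in
theorem specDEN : SpecDEN := by
  intro K _ _ T _ _ n F s
  have hU : IsOpen {w : Fin n → ℂ | ∀ d, w d ≠ 0} := by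
    have h1 : {w : Fin n → ℂ | ∀ d, w d ≠ 0} = ⋂ d, {w : Fin n → ℂ | w d ≠ 0} := by
      ext z
      simp only [Set.mem_ofPred_eq, Set.mem_iInter]
    rw [h1]
    exact isOpen_iInter_of_finite fun d => isOpen_ne_fun (continuous_apply d) continuous_const
  have hUd : Dense {w : Fin n → ℂ | ∀ d, w d ≠ 0} := by
    have h1 : {w : Fin n → ℂ | ∀ d, w d ≠ 0} = Set.univ.pi fun _ => {(0 : ℂ)}ᶜ := by
      ext z
      simp only [Set.mem_ofPred_eq, Set.mem_univ_pi, Set.mem_compl_iff, Set.mem_singleton_iff]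
    rw [h1]
    exact dense_pi _ fun _ _ => dense_compl_singleton 0
  have hA : F.X ∩ {w : Fin n → ℂ | ∀ d, w d ≠ 0} ⊆ closure (F.P s) := by
    rintro z ⟨hz, hz0⟩
    rw [mem_closure_iff_nhds]
    intro V hV
    have h1 : (V ∩ F.X) ∈ nhds (psi F s (psi F s z)) := by
      rw [psi_psi F s hz0]
      exact Filter.inter_mem hV ((isOpen_X F).mem_nhds hz)
    have h2 := (psi_cont F s (psi_ne F s hz0)) h1
    have h3 : {w : Fin n → ℂ | ∀ d, w d ≠ 0} ∈ nhds (psi F s z) :=
      hU.mem_nhds (psi_ne F s hz0)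
    obtain ⟨_, ⟨e, rfl⟩, h4, h5⟩ := (dense_D F).inter_nhds_nonempty (Filter.inter_mem h2 h3)
    refine ⟨psi F s fun d => F.sg (Sum.inr d) e, h4.1, h4.2, e, fun d hd => ?_, fun d hd =>
      ⟨h5 d, ?_⟩⟩
    · simp only [psi, if_neg hd]
    · simp only [psi, if_pos hd]
  intro z hz
  have hB : z ∈ closure (F.X ∩ {w : Fin n → ℂ | ∀ d, w d ≠ 0}) := by
    rw [mem_closure_iff_nhds]
    intro V hV
    obtain ⟨w, h1, h2⟩ := hUd.inter_nhds_nonempty
      (Filter.inter_mem hV ((isOpen_X F).mem_nhds hz))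
    exact ⟨w, h2.1, h2.2, h1⟩
  have := closure_mono hA hB
  rwa [closure_closure] at this

end Pool.Agent.Lib.MPf11a48.SH
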