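import Mathlib

/-!
# Project S0, part (D), step 1: short vectors

`K` is a number field without real embeddings and `sg v` (`v : P`) are representatives of the pairs
of complex conjugate embeddings. Minkowski's theorem for `O_K ^ 2` and the volume preserving maps
`(v1, v2) ↦ ((v1 + x v2) / ρ, ρ v2)`.
-/

set_option autoImplicit false

namespace Pool.Agent.Lib.MPf11a48.SH.B

open NumberField Module MeasureTheory

variable {K : Type} [Field K] [NumberField K] {P : Type} [Fintype P]

/-- `sg` is a system of representatives of the pairs of complex conjugate embeddings. -/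
structure IsReps (sg : P → (K →+* ℂ)) : Prop where
  cov : ∀ φ : K →+* ℂ, ∃ v, (∀ k, φ k = sg v k) ∨ ∀ k, φ k = (starRingEnd ℂ) (sg v k)
  card : finrank ℚ K = 2 * Fintype.card P

theorem linInd {sg : P → (K →+* ℂ)} (h : IsReps sg) :
    LinearIndependent ℝ (fun i : Free.ChooseBasisIndex ℤ (𝓞 K) => fun v : P =>
      sg v (integralBasis K i)) := by
  rw [Fintype.linearIndependent_iff]
  intro g hg i
  have h1 : ∑ j, (g j : ℂ) • canonicalEmbedding.latticeBasis K j = 0 := by
    funext φ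
    rw [Finset.sum_apply, Pi.zero_apply]
    obtain ⟨v, hv⟩ := h.cov φ
    have h2 : ∑ j, (g j : ℂ) * sg v (integralBasis K j) = 0 := by
      have := congrFun hg v
      rw [Finset.sum_apply, Pi.zero_apply] at this
      rw [← this]
      refine Finset.sum_congr rfl fun j _ => ?_
      rw [Pi.smul_apply, Complex.real_smul]
    rcases hv with hv | hv
    · rw [← h2]
      refine Finset.sum_congr rfl fun j _ => ?_
      rw [Pi.smul_apply, smul_eq_mul, canonicalEmbedding.latticeBasis_apply,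
        canonicalEmbedding.apply_at, hv]
    · have h3 := congrArg (starRingEnd ℂ) h2
      rw [map_sum, map_zero] at h3
      rw [← h3]
      refine Finset.sum_congr rfl fun j _ => ?_
      rw [Pi.smul_apply, smul_eq_mul, canonicalEmbedding.latticeBasis_apply,
        canonicalEmbedding.apply_at, hv, map_mul, Complex.conj_ofReal]
  have h4 := (Fintype.linearIndependent_iff.1 (canonicalEmbedding.latticeBasis K).linearIndependent)
    (fun j => (g j : ℂ)) h1 i
  exact_mod_cast h4

/-- The real basis of `ℂ ^ P` given by a basis of the ring of integers. -/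
noncomputable def bP {sg : P → (K →+* ℂ)} (h : IsReps sg) :
    Basis (Free.ChooseBasisIndex ℤ (𝓞 K)) ℝ (P → ℂ) :=
  basisOfLinearIndependentOfCardEqFinrank' _ (linInd h) (by
    rw [← finrank_eq_card_chooseBasisIndex, RingOfIntegers.rank, h.card]
    simp [Module.finrank_pi_fintype, mul_comm])

theorem bP_apply {sg : P → (K →+* ℂ)} (h : IsReps sg) (i : Free.ChooseBasisIndex ℤ (𝓞 K)) :
    bP h i = fun v => sg v (integralBasis K i) := by
  rw [bP, coe_basisOfLinearIndependentOfCardEqFinrank']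

theorem mem_span_bP {sg : P → (K →+* ℂ)} (h : IsReps sg) {x : P → ℂ}
    (hx : x ∈ Submodule.span ℤ (Set.range (bP h))) : ∃ a : 𝓞 K, x = fun v => sg v a := by
  induction hx using Submodule.span_induction with
  | mem x hx =>
    obtain ⟨i, rfl⟩ := hx
    exact ⟨RingOfIntegers.basis K i, by rw [bP_apply, integralBasis_apply]⟩
  | zero => exact ⟨0, by funext v; simp⟩
  | add x y _ _ hx hy =>
    obtain ⟨a, rfl⟩ := hx
    obtain ⟨b, rfl⟩ := hy
    exact ⟨a + b, by funext v; simp⟩
  | smul n x _ hx =>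
    obtain ⟨a, rfl⟩ := hx
    exact ⟨n • a, by funext v; simp⟩

/-- The convex symmetric set; the first coordinate is `v2`, the second one is `v1`. -/
def SS (C : ℝ) (x : P → ℂ) (ρ : P → ℝ) : Set ((P → ℂ) × (P → ℂ)) :=
  {w | ∀ v, ‖w.2 v + x v * w.1 v‖ < C * ρ v ∧ ‖w.1 v‖ < C / ρ v}

/-- The shear. -/
def shear (x : P → ℂ) (w : (P → ℂ) × (P → ℂ)) : (P → ℂ) × (P → ℂ) :=
  (w.1, w.2 + x * w.1)

theorem shear_mp (x : P → ℂ) :
    MeasurePreserving (shear x) (volume : Measure ((P → ℂ) × (P → ℂ))) volume := by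
  have h := (MeasurePreserving.id (volume : Measure (P → ℂ))).skew_product
    (μc := (volume : Measure (P → ℂ))) (μd := (volume : Measure (P → ℂ)))
    (g := fun a c => c + x * a) (by fun_prop)
    (Filter.Eventually.of_forall fun a => map_add_right_eq_self _ _)
  exact h

omit [Fintype P] in
theorem SS_eq (C : ℝ) (x : P → ℂ) (ρ : P → ℝ) :
    SS C x ρ = shear x ⁻¹' ((Set.univ.pi fun v => Metric.ball (0 : ℂ) (C / ρ v)) ×ˢ
      (Set.univ.pi fun v => Metric.ball (0 : ℂ) (C * ρ v))) := by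
  ext w
  simp only [SS, shear, Set.mem_ofPred_eq, Set.mem_preimage, Set.mem_prod, Set.mem_univ_pi,
    mem_ball_zero_iff, Pi.add_apply, Pi.mul_apply]
  constructor
  · intro h
    exact ⟨fun v => (h v).2, fun v => (h v).1⟩
  · rintro ⟨h1, h2⟩ v
    exact ⟨h2 v, h1 v⟩

theorem vol_SS {C : ℝ} (hC : 0 < C) (x : P → ℂ) {ρ : P → ℝ} (hρ : ∀ v, 0 < ρ v) :
    volume (SS C x ρ) = (ENNReal.ofReal C ^ 4 * (NNReal.pi : ENNReal) ^ 2) ^ Fintype.card P := by
  have hm : MeasurableSet ((Set.univ.pi fun v => Metric.ball (0 : ℂ) (C / ρ v)) ×ˢ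
      (Set.univ.pi fun v => Metric.ball (0 : ℂ) (C * ρ v))) :=
    (MeasurableSet.univ_pi fun _ => Metric.isOpen_ball.measurableSet).prod
      (MeasurableSet.univ_pi fun _ => Metric.isOpen_ball.measurableSet)
  rw [SS_eq, (shear_mp x).measure_preimage hm.nullMeasurableSet, Measure.volume_eq_prod,
    Measure.prod_prod, volume_pi_pi, volume_pi_pi, ← Finset.prod_mul_distrib,
    ← Finset.card_univ, ← Finset.prod_const]
  refine Finset.prod_congr rfl fun v _ => ?_
  rw [Complex.volume_ball, Complex.volume_ball]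
  have h1 : ENNReal.ofReal (C / ρ v) * ENNReal.ofReal (C * ρ v) = ENNReal.ofReal C ^ 2 := by
    rw [← ENNReal.ofReal_mul (by have := hρ v; positivity), sq, ← ENNReal.ofReal_mul hC.le]
    congr 1
    have := (hρ v).ne'
    field_simp
  calc ENNReal.ofReal (C / ρ v) ^ 2 * NNReal.pi * (ENNReal.ofReal (C * ρ v) ^ 2 * NNReal.pi)
      = (ENNReal.ofReal (C / ρ v) * ENNReal.ofReal (C * ρ v)) ^ 2 * (NNReal.pi : ENNReal) ^ 2 := by
        ring
    _ = _ := by rw [h1]; ring

omit [Fintype P] in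
theorem convex_SS (C : ℝ) (x : P → ℂ) (ρ : P → ℝ) : Convex ℝ (SS C x ρ) := by
  have h1 : SS C x ρ = (⋂ v, {w | ‖w.2 v + x v * w.1 v‖ < C * ρ v}) ∩
      ⋂ v, {w : (P → ℂ) × (P → ℂ) | ‖w.1 v‖ < C / ρ v} := by
    ext w
    simp only [SS, Set.mem_ofPred_eq, Set.mem_inter_iff, Set.mem_iInter]
    exact ⟨fun h => ⟨fun v => (h v).1, fun v => (h v).2⟩, fun h v => ⟨h.1 v, h.2 v⟩⟩
  rw [h1]
  refine Convex.inter (convex_iInter fun v => ?_) (convex_iInter fun v => ?_)
  · intro a ha b hb s t hs ht hst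
    simp only [Set.mem_ofPred_eq] at ha hb ⊢
    have h2 : (s • a + t • b).2 v + x v * (s • a + t • b).1 v =
        (s : ℂ) * (a.2 v + x v * a.1 v) + (t : ℂ) * (b.2 v + x v * b.1 v) := by
      simp only [Prod.snd_add, Prod.fst_add, Prod.smul_snd, Prod.smul_fst, Pi.add_apply,
        Pi.smul_apply, Complex.real_smul]
      ring
    rw [h2]
    refine lt_of_le_of_lt (norm_add_le _ _) ?_
    rw [norm_mul, norm_mul, Complex.norm_real, Complex.norm_real, Real.norm_of_nonneg hs,
      Real.norm_of_nonneg ht]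
    rcases hs.eq_or_lt with rfl | hs'
    · have : t = 1 := by linarith
      subst this
      simpa using hb
    · exact lt_of_lt_of_le (add_lt_add_of_lt_of_le (mul_lt_mul_of_pos_left ha hs')
        (mul_le_mul_of_nonneg_left hb.le ht)) (by rw [← add_mul, hst, one_mul])
  · intro a ha b hb s t hs ht hst
    simp only [Set.mem_ofPred_eq] at ha hb ⊢
    have h2 : (s • a + t • b).1 v = (s : ℂ) * a.1 v + (t : ℂ) * b.1 v := by
      simp only [Prod.fst_add, Prod.smul_fst, Pi.add_apply, Pi.smul_apply, Complex.real_smul]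
    rw [h2]
    refine lt_of_le_of_lt (norm_add_le _ _) ?_
    rw [norm_mul, norm_mul, Complex.norm_real, Complex.norm_real, Real.norm_of_nonneg hs,
      Real.norm_of_nonneg ht]
    rcases hs.eq_or_lt with rfl | hs'
    · have : t = 1 := by linarith
      subst this
      simpa using hb
    · exact lt_of_lt_of_le (add_lt_add_of_lt_of_le (mul_lt_mul_of_pos_left ha hs')
        (mul_le_mul_of_nonneg_left hb.le ht)) (by rw [← add_mul, hst, one_mul])

/-- The lattice `O_K ^ 2`. -/
noncomputable def LL {sg : P → (K →+* ℂ)} (h : IsReps sg) : AddSubgroup ((P → ℂ) × (P → ℂ)) :=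
  (Submodule.span ℤ (Set.range ((bP h).prod (bP h)))).toAddSubgroup

theorem mem_LL {sg : P → (K →+* ℂ)} (h : IsReps sg) {w : (P → ℂ) × (P → ℂ)} (hw : w ∈ LL h) :
    ∃ a b : 𝓞 K, w = (fun v => sg v a, fun v => sg v b) := by
  have hw' : w ∈ Submodule.span ℤ (Set.range ((bP h).prod (bP h))) := hw
  induction hw' using Submodule.span_induction with
  | mem x hx =>
    obtain ⟨i, rfl⟩ := hx
    rcases i with i | i
    · obtain ⟨a, ha⟩ := mem_span_bP h (Submodule.subset_span ⟨i, rfl⟩)
      exact ⟨a, 0, by rw [← ha]; ext v <;> simp⟩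
    · obtain ⟨a, ha⟩ := mem_span_bP h (Submodule.subset_span ⟨i, rfl⟩)
      exact ⟨0, a, by rw [← ha]; ext v <;> simp⟩
  | zero => exact ⟨0, 0, by ext v <;> simp⟩
  | add x y hx' hy' hx hy =>
    obtain ⟨a, b, rfl⟩ := hx hx'
    obtain ⟨a', b', rfl⟩ := hy hy'
    exact ⟨a + a', b + b', by ext v <;> simp⟩
  | smul n x hx' hx =>
    obtain ⟨a, b, rfl⟩ := hx hx'
    exact ⟨n • a, n • b, by ext v <;> simp⟩

theorem le_self_pow_of_one_le_of_le {a b : ENNReal} (h : a ≤ b) (hb : 1 ≤ b) {n : ℕ}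
    (hn : 0 < n) : a ≤ b ^ n := by
  calc a ≤ b := h
    _ = b ^ 1 := (pow_one b).symm
    _ ≤ b ^ n := pow_le_pow_right₀ hb hn

instance : (volume : Measure ((P → ℂ) × (P → ℂ))).IsAddHaarMeasure := by
  rw [Measure.volume_eq_prod]
  exact Measure.prod.instIsAddHaarMeasure _ _

/-- **Short vectors.** -/
theorem mink {sg : P → (K →+* ℂ)} (h : IsReps sg) : ∃ C : ℝ, 0 < C ∧
    ∀ (x : P → ℂ) (ρ : P → ℝ), (∀ v, 0 < ρ v) → ∃ a b : 𝓞 K, (a ≠ 0 ∨ b ≠ 0) ∧
      ∀ v, ‖sg v a + x v * sg v b‖ < C * ρ v ∧ ‖sg v b‖ < C / ρ v := by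
  set B := (bP h).prod (bP h) with hB
  set F := ZSpan.fundamentalDomain B with hF
  have hfund : IsAddFundamentalDomain (LL h) F (volume : Measure ((P → ℂ) × (P → ℂ))) :=
    ZSpan.isAddFundamentalDomain' B volume
  have hfin : (volume : Measure ((P → ℂ) × (P → ℂ))) F ≠ ⊤ :=
    (ZSpan.fundamentalDomain_isBounded B).measure_lt_top.ne
  set A : ENNReal := volume F * 2 ^ finrank ℝ ((P → ℂ) × (P → ℂ)) with hA
  have hAt : A ≠ ⊤ := ENNReal.mul_ne_top hfin (ENNReal.pow_ne_top ENNReal.ofNat_ne_top)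
  have hP : 0 < Fintype.card P := by
    have h1 : 0 < finrank ℚ K := finrank_pos
    rw [h.card] at h1
    omega
  refine ⟨A.toReal + 1, by positivity, fun x ρ hρ => ?_⟩
  have hC : 0 < A.toReal + 1 := by positivity
  have h1 : A < ENNReal.ofReal (A.toReal + 1) := by
    rw [ENNReal.ofReal_add ENNReal.toReal_nonneg zero_le_one, ENNReal.ofReal_toReal hAt,
      ENNReal.ofReal_one]
    exact ENNReal.lt_add_right hAt one_ne_zero
  have h2 : (1 : ENNReal) ≤ ENNReal.ofReal (A.toReal + 1) := by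
    rw [← ENNReal.ofReal_one]
    exact ENNReal.ofReal_le_ofReal (by linarith [@ENNReal.toReal_nonneg A])
  have h3 : A < volume (SS (A.toReal + 1) x ρ) := by
    rw [vol_SS hC x hρ]
    refine lt_of_lt_of_le h1 ?_
    have hpi : (1 : ENNReal) ≤ (NNReal.pi : ENNReal) := by
      have : (1 : NNReal) ≤ NNReal.pi := by
        rw [← NNReal.coe_le_coe]
        have := Real.pi_gt_three
        simp only [NNReal.coe_one, NNReal.coe_real_pi]
        linarith
      exact_mod_cast this
    have h5 : ENNReal.ofReal (A.toReal + 1) ≤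
        ENNReal.ofReal (A.toReal + 1) ^ 4 * (NNReal.pi : ENNReal) ^ 2 := by
      calc ENNReal.ofReal (A.toReal + 1) = ENNReal.ofReal (A.toReal + 1) ^ 1 * 1 := by simp
        _ ≤ _ := mul_le_mul' (pow_le_pow_right₀ h2 (by norm_num)) (one_le_pow₀ hpi)
    exact le_self_pow_of_one_le_of_le h5 (h2.trans h5) hP
  have hcount : Countable (LL h) := by
    have : Countable (Submodule.span ℤ (Set.range B)) := inferInstance
    exact this
  obtain ⟨w, hw0, hw⟩ := exists_ne_zero_mem_lattice_of_measure_mul_two_pow_lt_measure hfund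
    (s := SS (A.toReal + 1) x ρ) (fun w hw v => by
      have h4 := hw v
      refine ⟨?_, ?_⟩
      · rw [Prod.snd_neg, Prod.fst_neg, Pi.neg_apply, Pi.neg_apply, mul_neg, ← neg_add, norm_neg]
        exact h4.1
      · rw [Prod.fst_neg, Pi.neg_apply, norm_neg]
        exact h4.2) (convex_SS _ _ _) h3
  obtain ⟨b, a, hba⟩ := mem_LL h w.2
  refine ⟨a, b, ?_, fun v => ?_⟩
  · by_contra hcon
    push Not at hcon
    apply hw0
    ext v
    · rw [hba, hcon.2]; simp
    · rw [hba, hcon.1]; simp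
  · have := hw v
    rw [hba] at this
    exact this

end Pool.Agent.Lib.MPf11a48.SH.B
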